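import Pool.Agent.TH707.SL.Easy
import Pool.Agent.H620R2.Gauge.M
import Pool.Agent.W900.CH.PLev

/-!
# Few strings are code strings; sets of oracles that contain an oracle near every oracle
-/

set_option autoImplicit false

namespace Pool.Agent.TH707.SL

open Pool.Agent.NPC Pool.Agent.H620R2.Gauge Finset MeasureTheory Filter
open Pool.Agent.TH707.EC
open Pool.Agent.W900.CH (Close dist_le_of_off)
open H568R2

/-- the number `(log N) ^ (1 / k)` -/
noncomputable def rt (k N : ℕ) : ℝ := (Real.logb 2 N) ^ (1 / k : ℝ)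

open Classical in
theorem sparse_TK {k : ℕ} (hk : 1 ≤ k) {ε : ℝ} (hε : 0 < ε) : ∃ K : ℕ, ∀ᶠ N : ℕ in atTop,
    (((Finset.range N).filter (fun i => str i ∈ TK K k)).card : ℝ) ≤ 2 ^ (ε * rt k N) := by
  obtain ⟨K, hK⟩ := exists_nat_ge ((2 / ε) ^ k)
  have hk0 : (0 : ℝ) < k := by exact_mod_cast hk
  have hK0 : (0 : ℝ) < K := lt_of_lt_of_le (by positivity) hK
  refine ⟨K, ?_⟩
  have h1 : Tendsto (fun N : ℕ => rt k N) atTop atTop := by
    refine (tendsto_rpow_atTop (by positivity)).comp ?_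
    exact (Real.tendsto_logb_atTop (by norm_num)).comp tendsto_natCast_atTop_atTop
  filter_upwards [h1.eventually (eventually_ge_atTop (2 / ε)), eventually_ge_atTop 1] with N hN hN1
  have hN' : (1 : ℝ) ≤ N := by exact_mod_cast hN1
  have hlog0 : 0 ≤ Real.logb 2 (N : ℝ) := Real.logb_nonneg (by norm_num) hN'
  have hr0 : 0 ≤ ε / 2 * rt k N := by
    have : 0 ≤ rt k N := Real.rpow_nonneg hlog0 _
    positivity
  set r := ⌊ε / 2 * rt k N⌋₊ with hr
  -- the short descriptions of the code strings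
  have hcode : ∀ i < N, ∀ e z, str i = code (RK K k) e z → z.length + (e + 1) ≤ r := by
    intro i hi e z h
    have h2 : (str i).length ≤ Nat.log 2 N := Pool.Agent.W900.CH.length_str_le_log hi
    rw [h, length_code, eval_RK] at h2
    have h3 : K * (z.length + (e + 1)) ^ k ≤ Nat.log 2 N := by omega
    have h4 : ((K * (z.length + (e + 1)) ^ k : ℕ) : ℝ) ≤ Real.logb 2 N := by
      have h5 : ((Nat.log 2 N : ℕ) : ℝ) ≤ Real.logb 2 N := by
        rw [Real.le_logb_iff_rpow_le (by norm_num) (by linarith), Real.rpow_natCast]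
        exact_mod_cast Nat.pow_log_le_self 2 (by omega)
      exact (Nat.cast_le.2 h3).trans h5
    push_cast at h4
    apply Nat.le_floor
    have h5 : ((z.length : ℝ) + (e + 1)) ^ k ≤ (ε / 2) ^ k * Real.logb 2 N := by
      have h6 : ((z.length : ℝ) + (e + 1)) ^ k ≤ Real.logb 2 N / K := by
        rw [le_div_iff₀ hK0]
        linarith
      refine h6.trans ?_
      rw [div_le_iff₀ hK0]
      have h7 : 1 ≤ (ε / 2) ^ k * K := by
        have h8 : (ε / 2) ^ k * (2 / ε) ^ k = 1 := by
          rw [← mul_pow]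
          have : ε / 2 * (2 / ε) = 1 := by field_simp
          rw [this, one_pow]
        rw [← h8]
        exact mul_le_mul_of_nonneg_left hK (by positivity)
      nlinarith
    have h6 : (((z.length : ℝ) + (e + 1)) ^ k) ^ (1 / k : ℝ) ≤
        ((ε / 2) ^ k * Real.logb 2 N) ^ (1 / k : ℝ) :=
      Real.rpow_le_rpow (by positivity) h5 (by positivity)
    rw [Real.mul_rpow (by positivity) hlog0, one_div,
      Real.pow_rpow_inv_natCast (by positivity) (by omega),
      Real.pow_rpow_inv_natCast (by positivity) (by omega)] at h6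
    push_cast
    unfold rt
    rw [one_div]
    exact h6
  have hcard : ((Finset.range N).filter (fun i => str i ∈ TK K k)).card ≤ 2 ^ (r + 1) := by
    have hex : ∀ i, ∃ s : List Bool, str i ∈ TK K k → ∃ e z, str i = code (RK K k) e z ∧
        s = List.replicate e true ++ false :: z := by
      intro i
      by_cases h : str i ∈ TK K k
      · obtain ⟨e, z, h⟩ := h
        exact ⟨_, fun _ => ⟨e, z, h, rfl⟩⟩
      · exact ⟨[], fun h' => absurd h' h⟩
    choose s hs using hex
    calc ((Finset.range N).filter (fun i => str i ∈ TK K k)).card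
        ≤ (Finset.range (2 ^ (r + 1))).card := by
          refine card_le_card_of_injOn (fun i => idx (s i)) ?_ ?_
          · intro i hi
            rw [mem_coe, mem_filter, mem_range] at hi
            obtain ⟨e, z, h1, h2⟩ := hs i hi.2
            rw [mem_coe, mem_range]
            have h3 := hcode i hi.1 e z h1
            have h4 := idx_lt (s i)
            have h5 : (s i).length ≤ r := by
              rw [h2, List.length_append, List.length_replicate, List.length_cons]
              omega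
            have h6 : 2 ^ ((s i).length + 1) ≤ 2 ^ (r + 1) :=
              Nat.pow_le_pow_right (by norm_num) (by omega)
            beta_reduce
            omega
          · intro i hi j hj hij
            rw [mem_coe, mem_filter, mem_range] at hi hj
            obtain ⟨e, z, h1, h2⟩ := hs i hi.2
            obtain ⟨e', z', h1', h2'⟩ := hs j hj.2
            have h3 := congrArg str hij
            simp only [str_idx] at h3
            rw [h2, h2'] at h3
            obtain ⟨rfl, rfl⟩ := CC.rep_inj _ _ _ _ h3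
            have h4 := congrArg idx (h1.trans h1'.symm)
            rwa [idx_str, idx_str] at h4
      _ = 2 ^ (r + 1) := card_range _
  have h2 : (((Finset.range N).filter (fun i => str i ∈ TK K k)).card : ℝ) ≤ 2 ^ (r + 1) := by
    exact_mod_cast hcard
  refine h2.trans ?_
  rw [← Real.rpow_natCast]
  apply Real.rpow_le_rpow_of_exponent_le (by norm_num)
  push_cast
  have h3 : (r : ℝ) ≤ ε / 2 * rt k N := Nat.floor_le hr0
  have h4 : 1 ≤ ε / 2 * rt k N := by
    have h5 : ε / 2 * (2 / ε) ≤ ε / 2 * rt k N := mul_le_mul_of_nonneg_left hN (by positivity)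
    have h6 : ε / 2 * (2 / ε) = 1 := by field_simp
    linarith
  linarith

open Classical in
/-- A set of oracles which contains, for every oracle, an oracle that differs from it only in a
sparse set is not a null set. -/
theorem not_null_of_sparse (f : ℕ → ℝ) (T : Set (List Bool)) (O : Set Oracle)
    (hf : ∀ᶠ N : ℕ in Filter.atTop,
      (((Finset.range N).filter (fun i => str i ∈ T)).card : ℝ) ≤ f N)
    (hO : ∀ R : Oracle, ∃ A ∈ O, ∀ y ∉ T, A y = R y) : ¬ Null f O := by
  intro hnull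
  choose Φ hΦO hΦ using hO
  obtain ⟨N₀, hN₀⟩ := Filter.eventually_atTop.1 hf
  -- the bound for the short sequences
  obtain ⟨δ, hδ, hδ1, hδ2⟩ : ∃ δ : ℝ, 0 < δ ∧ δ < 1 ∧
      ∀ N < N₀, δ < 2 ^ (f N - N) := by
    have h1 : ∀ M : ℕ, ∃ δ : ℝ, 0 < δ ∧ δ < 1 ∧ ∀ N < M, δ < 2 ^ (f N - N) := by
      intro M
      induction M with
      | zero => exact ⟨1 / 2, by norm_num, by norm_num, fun N hN => by omega⟩
      | succ M ih =>
        obtain ⟨δ, h1, h2, h3⟩ := ih
        have h4 : (0 : ℝ) < 2 ^ (f M - M) := Real.rpow_pos_of_pos (by norm_num) _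
        refine ⟨min δ (2 ^ (f M - M) / 2), lt_min h1 (by positivity),
          (min_le_left _ _).trans_lt h2, ?_⟩
        intro N hN
        rcases Nat.lt_succ_iff_lt_or_eq.1 hN with h | h
        · exact (min_le_left _ _).trans_lt (h3 N h)
        · subst h
          exact (min_le_right _ _).trans_lt (by linarith)
    exact h1 N₀
  obtain ⟨S, hS, hsum⟩ := hnull δ hδ
  have hm := mass Φ T (fun B y hy => hΦ B y hy) S (fun B => hS (Φ B) (hΦO B))
  have hle : ∀ σ : S, ENNReal.ofReal
      (2 ^ ((((Finset.range σ.1.length).filter (fun i => str i ∈ T)).card : ℝ) -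
        (σ.1.length : ℝ))) ≤ ENNReal.ofReal (2 ^ (f σ.1.length - σ.1.length)) := by
    intro σ
    have hlen : N₀ ≤ σ.1.length := by
      by_contra hlt
      push Not at hlt
      have h1 := hδ2 _ hlt
      have h2 : ENNReal.ofReal (2 ^ (f σ.1.length - σ.1.length)) ≤ ENNReal.ofReal δ :=
        (ENNReal.le_tsum σ).trans hsum
      have h3 := (ENNReal.ofReal_le_ofReal_iff hδ.le).1 h2
      linarith
    have h1 := hN₀ _ hlen
    apply ENNReal.ofReal_le_ofReal
    apply Real.rpow_le_rpow_of_exponent_le (by norm_num)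
    linarith
  have h1 : (1 : ENNReal) ≤ ENNReal.ofReal δ := hm.trans ((ENNReal.tsum_le_tsum hle).trans hsum)
  rw [← ENNReal.ofReal_one] at h1
  have h2 := (ENNReal.ofReal_le_ofReal_iff hδ.le).1 h1
  linarith

/-- the condition on the number of the changes -/
def CondG (k : ℕ) (g : ℕ → ℝ) : Prop :=
  ∀ ε : ℝ, 0 < ε → ∃ᶠ n : ℕ in atTop, g n ≤ 2 ^ (ε * (n : ℝ) ^ (1 / k : ℝ))

theorem condS_iff {k : ℕ} {f : ℕ → ℝ} : CondS k f ↔
    ∀ ε : ℝ, 0 < ε → ∃ᶠ N : ℕ in atTop, f N ≤ 2 ^ (ε * rt k N) := Iff.rfl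

/-- the exceptional sets are large -/
theorem easy_not_null {k : ℕ} (hk : 1 ≤ k) {f : ℕ → ℝ} (hf : ¬ CondS k f) :
    ¬ Null f (easyNE k) := by
  rw [condS_iff] at hf
  push Not at hf
  obtain ⟨ε, hε, hf⟩ := hf
  obtain ⟨K, hK⟩ := sparse_TK hk hε
  refine not_null_of_sparse f (TK K k) _ ?_ fun R => exists_easy K k hk R
  filter_upwards [hK, hf] with N h1 h2
  exact h1.trans h2.le

/-- few changes are enough -/
theorem easy_close {k : ℕ} (hk : 1 ≤ k) {g : ℕ → ℝ} (hg : ¬ CondG k g) (O : Oracle) :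
    ∃ A : Oracle, Close g O A ∧ A ∈ easyNE k := by
  classical
  unfold CondG at hg
  push Not at hg
  obtain ⟨ε, hε, hg⟩ := hg
  obtain ⟨K, hK⟩ := sparse_TK hk (half_pos hε)
  obtain ⟨A, hA1, hA2⟩ := exists_easy K k hk O
  refine ⟨A, ?_, hA1⟩
  have h2 : Tendsto (fun n : ℕ => 2 ^ (n + 1)) atTop atTop :=
    (tendsto_pow_atTop_atTop_of_one_lt (r := 2) (by norm_num)).comp (tendsto_add_atTop_nat 1)
  filter_upwards [h2.eventually hK, hg, eventually_ge_atTop 1] with n h3 h4 h5
  have h6 := dist_le_of_off hA2 n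
  refine (Nat.cast_le.2 h6).trans (h3.trans (le_trans ?_ h4.le))
  apply Real.rpow_le_rpow_of_exponent_le (by norm_num)
  have h7 : Real.logb 2 ((2 ^ (n + 1) : ℕ) : ℝ) = n + 1 := by
    push_cast
    rw [Real.logb_pow, Real.logb_self_eq_one (by norm_num), mul_one]
    push_cast
    ring
  unfold rt
  rw [h7]
  have hk0 : (0 : ℝ) < k := by exact_mod_cast hk
  have h8 : (1 : ℝ) ≤ n := by exact_mod_cast h5
  have h9 : ((n : ℝ) + 1) ^ (1 / k : ℝ) ≤ 2 * (n : ℝ) ^ (1 / k : ℝ) := by
    calc ((n : ℝ) + 1) ^ (1 / k : ℝ) ≤ (2 * (n : ℝ)) ^ (1 / k : ℝ) :=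
          Real.rpow_le_rpow (by positivity) (by linarith) (by positivity)
      _ = 2 ^ (1 / k : ℝ) * (n : ℝ) ^ (1 / k : ℝ) := Real.mul_rpow (by norm_num) (by positivity)
      _ ≤ 2 * (n : ℝ) ^ (1 / k : ℝ) := by
          apply mul_le_mul_of_nonneg_right _ (by positivity)
          calc (2 : ℝ) ^ (1 / k : ℝ) ≤ 2 ^ (1 : ℝ) := by
                apply Real.rpow_le_rpow_of_exponent_le (by norm_num)
                rw [div_le_one hk0]
                exact_mod_cast hk
            _ = 2 := Real.rpow_one _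
  calc ε / 2 * ((n : ℝ) + 1) ^ (1 / k : ℝ) ≤ ε / 2 * (2 * (n : ℝ) ^ (1 / k : ℝ)) :=
        mul_le_mul_of_nonneg_left h9 (by positivity)
    _ = ε * (n : ℝ) ^ (1 / k : ℝ) := by ring

/-- the gauge which belongs to the number of the changes -/
theorem condS_gau {k : ℕ} (hk : 1 ≤ k) {g : ℕ → ℝ} (hg : CondG k g) (n₁ : ℕ) :
    CondS k (gau g n₁) := by
  intro ε hε
  have hk0 : (0 : ℝ) < k := by exact_mod_cast hk
  -- `n + 1 ≤ 2 ^ ((ε / 2) n ^ (1 / k))`
  have h0 : ∀ᶠ n : ℕ in atTop, ((n : ℝ) + 1) ≤ 2 ^ (ε / 2 * (n : ℝ) ^ (1 / k : ℝ)) := by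
    have h1 : Tendsto (fun n : ℕ => ε / 2 * (n : ℝ) ^ (1 / k : ℝ)) atTop atTop :=
      Tendsto.const_mul_atTop (half_pos hε)
        ((tendsto_rpow_atTop (by positivity)).comp tendsto_natCast_atTop_atTop)
    have h2 : ∀ᶠ n : ℕ in atTop, Real.logb 2 ((n : ℝ) + 1) ≤ ε / 2 * (n : ℝ) ^ (1 / k : ℝ) := by
      have h3 : Tendsto (fun x : ℝ => Real.log x / x ^ (1 / k : ℝ)) atTop (nhds 0) := by
        have := (isLittleO_log_rpow_atTop (r := (1 / k : ℝ)) (by positivity)).tendsto_div_nhds_zero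
        exact this
      have h4 : ∀ᶠ x : ℝ in atTop, Real.log x / x ^ (1 / k : ℝ) ≤ ε / 2 * Real.log 2 / 4 :=
        h3.eventually_le_const (by
          have := Real.log_pos (show (1 : ℝ) < 2 by norm_num)
          positivity)
      have h5 : Tendsto (fun n : ℕ => (n : ℝ)) atTop atTop := tendsto_natCast_atTop_atTop
      filter_upwards [h5.eventually h4, eventually_ge_atTop 2] with n h6 h7
      have h8 : (2 : ℝ) ≤ n := by exact_mod_cast h7
      have hlog2 := Real.log_pos (show (1 : ℝ) < 2 by norm_num)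
      have h9 : Real.log n ≤ ε / 2 * Real.log 2 / 4 * (n : ℝ) ^ (1 / k : ℝ) := by
        rwa [div_le_iff₀ (by positivity)] at h6
      have h10 : Real.log ((n : ℝ) + 1) ≤ 2 * Real.log n := by
        rw [← Real.log_rpow (by linarith)]
        apply Real.log_le_log (by linarith)
        norm_num
        nlinarith
      unfold Real.logb
      rw [div_le_iff₀ hlog2]
      have h11 : 0 ≤ (n : ℝ) ^ (1 / k : ℝ) := by positivity
      nlinarith [mul_nonneg (mul_nonneg hε.le hlog2.le) h11]
    filter_upwards [h2] with n h3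
    calc ((n : ℝ) + 1) = 2 ^ (Real.logb 2 ((n : ℝ) + 1)) := by
          rw [Real.rpow_logb (by norm_num) (by norm_num) (by positivity)]
      _ ≤ _ := Real.rpow_le_rpow_of_exponent_le (by norm_num) h3
  have h1 : ∃ᶠ n : ℕ in atTop, gau g n₁ (2 ^ n) ≤ 2 ^ (ε * rt k (2 ^ n)) := by
    refine ((hg _ (half_pos hε)).and_eventually (h0.and
      (eventually_ge_atTop (max n₁ 1)))).mono ?_
    rintro n ⟨h2, h3, h4⟩
    have h5 : n₁ ≤ n := (le_max_left _ _).trans h4
    have h7 : rt k (2 ^ n) = (n : ℝ) ^ (1 / k : ℝ) := by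
      unfold rt
      push_cast
      rw [Real.logb_pow, Real.logb_self_eq_one (by norm_num), mul_one]
    rw [h7]
    have h8 : ((allow g n₁ (2 ^ n)).card : ℝ) ≤ (2 ^ n + 1) ^ ⌊g n⌋₊ := by
      have h9 : allow g n₁ (2 ^ n) ⊆
          (Finset.range (2 ^ n)).powerset.filter (fun D => D.card ≤ ⌊g n⌋₊) := by
        intro D hD
        rw [mem_allow] at hD
        rw [Finset.mem_filter, Finset.mem_powerset]
        refine ⟨hD.1, Nat.le_floor ?_⟩
        exact hD.2 n h5 (by rw [Nat.log_pow (by norm_num)])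
      have h10 := (Finset.card_le_card h9).trans
        (Pool.Agent.W900.CH.card_small (2 ^ n) ⌊g n⌋₊)
      exact_mod_cast h10
    have h9 : max 1 ((allow g n₁ (2 ^ n)).card : ℝ) ≤ (2 : ℝ) ^ ((n + 1) * ⌊g n⌋₊) := by
      have h10 : (1 : ℝ) ≤ (2 ^ n + 1) ^ ⌊g n⌋₊ := one_le_pow₀ (by
        have : (0 : ℝ) < 2 ^ n := by positivity
        linarith)
      refine (max_le h10 h8).trans ?_
      rw [pow_mul]
      refine pow_le_pow_left₀ (by positivity) ?_ _
      have : (1 : ℝ) ≤ 2 ^ n := one_le_pow₀ (by norm_num)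
      rw [pow_succ]
      linarith
    have h10 : gau g n₁ (2 ^ n) ≤ ((n : ℝ) + 1) * (⌊g n⌋₊ : ℝ) := by
      unfold gau
      refine (Real.logb_le_logb_of_le (by norm_num) (by positivity) h9).trans (le_of_eq ?_)
      rw [Real.logb_pow, Real.logb_self_eq_one (by norm_num), mul_one]
      push_cast
      ring
    have h11 : (⌊g n⌋₊ : ℝ) ≤ 2 ^ (ε / 2 * (n : ℝ) ^ (1 / k : ℝ)) := by
      rcases le_total 0 (g n) with h | h
      · exact (Nat.floor_le h).trans h2
      · rw [Nat.floor_of_nonpos h]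
        push_cast
        positivity
    calc gau g n₁ (2 ^ n) ≤ ((n : ℝ) + 1) * (⌊g n⌋₊ : ℝ) := h10
      _ ≤ 2 ^ (ε / 2 * (n : ℝ) ^ (1 / k : ℝ)) * 2 ^ (ε / 2 * (n : ℝ) ^ (1 / k : ℝ)) := by
          gcongr
      _ = 2 ^ (ε * (n : ℝ) ^ (1 / k : ℝ)) := by
          rw [← Real.rpow_add (by norm_num)]
          congr 1
          ring
  exact (tendsto_pow_atTop_atTop_of_one_lt (by norm_num)).frequently h1

end Pool.Agent.TH707.SL
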