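import Pool.Agent.TH707.SL.Bound

/-!
# Null sets: all languages in `P` have circuits of size `O(n ^ k)`
-/

set_option autoImplicit false

namespace Pool.Agent.TH707.SL

open Pool.Agent.NPC Pool.Agent.H620R2.Gauge Finset MeasureTheory Filter
open Pool.Agent.H622R2.Ckt
open Pool.Agent.TH707.EC
open H568R2

/-- the length of the first component of a pair -/
def lead (y : List Bool) : ℕ := (unpair y).1.length

theorem lead_rep (c : ℕ) (z : List Bool) : lead (pairBits (List.replicate c true) z) = c := by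
  unfold lead
  rw [unpair_pairBits, List.length_replicate]

/-- the test language -/
def tst (k : ℕ) (A : Oracle) : Set (List Bool) :=
  {y | A (y ++ List.replicate ((lead y + 1) * y.length ^ k) false) = true}

/-- the test strings with first component `1 ^ c` -/
noncomputable def Tk (c n : ℕ) : Finset (List Bool) :=
  (keys (n - (2 * c + 1))).image fun z => pairBits (List.replicate c true) z

theorem mem_Tk {c n : ℕ} (h : 2 * c + 1 ≤ n) {y : List Bool} (hy : y ∈ Tk c n) :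
    y.length = n ∧ lead y = c := by
  unfold Tk at hy
  rw [mem_image] at hy
  obtain ⟨z, hz, rfl⟩ := hy
  rw [mem_keys] at hz
  refine ⟨?_, lead_rep c z⟩
  rw [length_pairBits, List.length_replicate, hz]
  omega

theorem card_Tk (c n : ℕ) : (Tk c n).card = 2 ^ (n - (2 * c + 1)) := by
  unfold Tk
  rw [card_image_of_injective, card_keys]
  intro z z' h
  have h1 := congrArg unpair h
  rw [unpair_pairBits, unpair_pairBits] at h1
  exact (Prod.mk.inj h1).2

/-- the test language has a circuit of size at most `c n ^ k` -/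
def badS (k c n : ℕ) : Set Oracle :=
  {A | ∃ C : Circuit, C.size ≤ c * n ^ k ∧ ∀ y : List Bool, y.length = n →
    (y ∈ tst k A ↔ C.eval A y = true)}

/-- the length of the questions -/
def len (k c n : ℕ) : ℕ := n + (c + 1) * n ^ k + 1

theorem ev_of_bad {k c n N : ℕ} (hn : 2 * c + 1 ≤ n) (hN : 2 ^ len k c n ≤ N)
    {A : Oracle} (hA : A ∈ badS k c n) :
    EvA (Tk c n) ((c + 1) * n ^ k) (c * n ^ k) N (pre N A) := by
  obtain ⟨C, hC1, hC2⟩ := hA
  refine ⟨C, hC1, fun y hy => ?_⟩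
  obtain ⟨hy1, hy2⟩ := mem_Tk hn hy
  have hloc : ∀ y : List Bool, y.length ≤ n + (c + 1) * n ^ k → orc N (pre N A) y = A y := by
    intro y hy
    apply orc_pre
    have h2 := idx_lt y
    have h3 : 2 ^ (y.length + 1) ≤ 2 ^ len k c n :=
      Nat.pow_le_pow_right (by norm_num) (by unfold len; omega)
    omega
  have hsz : c * n ^ k ≤ n + (c + 1) * n ^ k := by
    have : c * n ^ k ≤ (c + 1) * n ^ k := Nat.mul_le_mul_right _ (Nat.le_succ c)
    omega
  rw [hloc (y ++ List.replicate ((c + 1) * n ^ k) false)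
      (by rw [List.length_append, List.length_replicate, hy1]),
    eval_local C (orc N (pre N A)) A (fun y hy => hloc y (by omega)) y, ← hC2 y hy1]
  unfold tst
  rw [Set.mem_ofPred_eq, hy1, hy2]

open Classical in
theorem cov_bad {k c n N : ℕ} (hn : 2 * c + 1 ≤ n) (hN : 2 ^ len k c n ≤ N)
    {f : ℕ → ℝ} {δ : ℝ}
    (h : (nC n (c * n ^ k) : ℝ) * (1 / 2) ^ (2 ^ (n - (2 * c + 1))) * (2 : ℝ) ^ f N ≤ δ) :
    Cov f (badS k c n) δ := by
  refine cover_of_event (EvA (Tk c n) ((c + 1) * n ^ k) (c * n ^ k) N) (badS k c n)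
    (fun A hA => ev_of_bad hn hN hA) f δ ?_
  refine (mul_le_mul_of_nonneg_right ?_ (by positivity)).trans h
  have h1 := evA_bound (T := Tk c n) (n := n) (q := (c + 1) * n ^ k) (s := c * n ^ k) (N := N)
    (fun y hy => (mem_Tk hn hy).1) hN (by
      have : c * n ^ k ≤ (c + 1) * n ^ k := Nat.mul_le_mul_right _ (Nat.le_succ c)
      omega)
  rwa [card_Tk] at h1

/-- the estimate -/
theorem asy (k c : ℕ) : ∀ᶠ n : ℕ in atTop, 2 * c + 1 ≤ n ∧
    ∀ F : ℝ, F ≤ 2 ^ (((n : ℝ) + 1) / 2) →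
      (nC n (c * n ^ k) : ℝ) * (1 / 2) ^ (2 ^ (n - (2 * c + 1))) * (2 : ℝ) ^ F ≤ (1 / 2) ^ n := by
  have h1 := poly_le_two_pow_div
    ((Polynomial.X + Polynomial.C c * Polynomial.X ^ k + Polynomial.C 8) *
      (Polynomial.C 4 * (Polynomial.C c * Polynomial.X ^ k) + Polynomial.C 4) + Polynomial.X)
    (E := 2) (by omega)
  filter_upwards [h1, eventually_ge_atTop (4 * c + 10)] with n h3 h5
  refine ⟨by omega, fun F hF => ?_⟩
  simp only [Polynomial.eval_add, Polynomial.eval_mul, Polynomial.eval_C, Polynomial.eval_X,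
    Polynomial.eval_pow] at h3
  set K := c * n ^ k with hK
  -- the number of circuits
  have h6 : nC n K ≤ 2 ^ ((n + K + 8) * (4 * K + 4)) := by
    unfold nC
    rw [pow_mul]
    exact Nat.pow_le_pow_left Nat.lt_two_pow_self.le _
  have h7 : ((n + K + 8) * (4 * K + 4) : ℕ) + n ≤ 2 ^ (n / 2) := by omega
  have h8 : (2 : ℝ) ^ (((n : ℝ) + 1) / 2) ≤ 2 ^ (n / 2 + 1 : ℕ) := by
    rw [← Real.rpow_natCast]
    apply Real.rpow_le_rpow_of_exponent_le (by norm_num)
    have h9 : n < 2 * (n / 2 + 1) := Nat.lt_mul_div_succ n (by omega)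
    have h10 : (n : ℝ) + 1 ≤ 2 * ((n / 2 + 1 : ℕ) : ℝ) := by exact_mod_cast h9
    linarith
  have h9 : 2 ^ (n / 2) + 2 ^ (n / 2 + 1) ≤ 2 ^ (n - (2 * c + 1)) := by
    have h10 : 2 ^ (n / 2 + 2) ≤ 2 ^ (n - (2 * c + 1)) := Nat.pow_le_pow_right (by norm_num) (by omega)
    have h11 : 2 ^ (n / 2 + 2) = 4 * 2 ^ (n / 2) := by rw [pow_add]; ring
    have h12 : 2 ^ (n / 2 + 1) = 2 * 2 ^ (n / 2) := by rw [pow_add]; ring
    omega
  have h10 : (nC n K : ℝ) ≤ 2 ^ (((n + K + 8) * (4 * K + 4) : ℕ) : ℝ) := by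
    rw [Real.rpow_natCast]
    exact_mod_cast h6
  have h11 : ((1 : ℝ) / 2) ^ (2 ^ (n - (2 * c + 1))) = 2 ^ (-((2 ^ (n - (2 * c + 1)) : ℕ) : ℝ)) := by
    rw [Real.rpow_neg (by norm_num), Real.rpow_natCast, one_div, inv_pow]
  have h12 : ((1 : ℝ) / 2) ^ n = 2 ^ (-(n : ℝ)) := by
    rw [Real.rpow_neg (by norm_num), Real.rpow_natCast, one_div, inv_pow]
  rw [h11, h12]
  calc (nC n K : ℝ) * 2 ^ (-((2 ^ (n - (2 * c + 1)) : ℕ) : ℝ)) * 2 ^ F
      ≤ 2 ^ (((n + K + 8) * (4 * K + 4) : ℕ) : ℝ) * 2 ^ (-((2 ^ (n - (2 * c + 1)) : ℕ) : ℝ)) *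
          2 ^ F := by gcongr
    _ = 2 ^ ((((n + K + 8) * (4 * K + 4) : ℕ) : ℝ) + -((2 ^ (n - (2 * c + 1)) : ℕ) : ℝ) + F) := by
        rw [← Real.rpow_add (by norm_num), ← Real.rpow_add (by norm_num)]
    _ ≤ 2 ^ (-(n : ℝ)) := by
        apply Real.rpow_le_rpow_of_exponent_le (by norm_num)
        have g1 : ((((n + K + 8) * (4 * K + 4) : ℕ) : ℝ)) + n ≤ ((2 ^ (n / 2) : ℕ) : ℝ) := by
          exact_mod_cast h7
        have g2 : ((2 ^ (n / 2) : ℕ) : ℝ) + ((2 ^ (n / 2 + 1) : ℕ) : ℝ) ≤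
            ((2 ^ (n - (2 * c + 1)) : ℕ) : ℝ) := by exact_mod_cast h9
        have g3 : ((2 ^ (n / 2 + 1) : ℕ) : ℝ) = 2 ^ (n / 2 + 1 : ℕ) := by push_cast; rfl
        rw [g3] at g2
        linarith

/-- the condition on the gauge -/
def CondS (k : ℕ) (f : ℕ → ℝ) : Prop :=
  ∀ ε : ℝ, 0 < ε → ∃ᶠ N : ℕ in atTop, f N ≤ 2 ^ (ε * (Real.logb 2 N) ^ (1 / k : ℝ))

/-- the oracles relative to which all languages in `P` have circuits of size `O(n ^ k)` -/
def easyP (k : ℕ) : Set Oracle :=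
  {A | ∀ L, IsP A L → ∃ c : ℝ, ∀ᶠ n : ℕ in atTop, Small A L (c * (n : ℝ) ^ k) n}

theorem null_badS {k : ℕ} (hk : 1 ≤ k) (c : ℕ) {f : ℕ → ℝ} (hf : CondS k f) :
    Null f {A | ∀ᶠ n : ℕ in atTop, A ∈ badS k c n} := by
  refine null_of_ev (P := badS k c) (fun A hA => hA) ?_
  intro δ hδ n₀
  obtain ⟨n₁, hn₁⟩ := eventually_atTop.1 (asy k c)
  obtain ⟨n₂, hn₂⟩ := exists_pow_lt_of_lt_one hδ (show (1 / 2 : ℝ) < 1 by norm_num)
  set m := max n₀ (max n₁ n₂) with hm
  have hsm : ∀ n, n + 1 ≤ len k c n := by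
    intro n
    unfold len
    omega
  have hεpos : (0 : ℝ) < 1 / (2 * (c + 4)) := by positivity
  obtain ⟨N, hfN, hN⟩ := ((hf _ hεpos).and_eventually (eventually_ge_atTop (2 ^ len k c m))).exists
  set l := Nat.log 2 N with hl
  have hml : len k c m ≤ l := Nat.le_log_of_pow_le (by norm_num) hN
  have hN0 : N ≠ 0 := by
    have : 0 < 2 ^ len k c m := by positivity
    omega
  set n := Nat.findGreatest (fun n => len k c n ≤ l) l with hn
  have hmn : m ≤ n := Nat.le_findGreatest (by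
    have := hsm m
    omega) hml
  have hns : len k c n ≤ l := Nat.findGreatest_spec (P := fun n => len k c n ≤ l) (m := m) (by
    have := hsm m
    omega) hml
  have hmax : l < len k c (n + 1) := by
    by_contra hc
    have h1 : n + 1 ≤ l := by
      have := hsm (n + 1)
      omega
    have := Nat.le_findGreatest (P := fun n => len k c n ≤ l) h1 (not_lt.1 hc)
    omega
  have h2 := hn₁ n (((le_max_left _ _).trans (le_max_right _ _)).trans hmn)
  refine ⟨n, (le_max_left _ _).trans hmn, ?_⟩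
  have hNs : 2 ^ len k c n ≤ N :=
    (Nat.pow_le_pow_right (by norm_num) hns).trans (Nat.pow_log_le_self 2 hN0)
  refine cov_bad h2.1 hNs ((h2.2 (f N) (hfN.trans ?_)).trans ?_)
  · apply Real.rpow_le_rpow_of_exponent_le (by norm_num)
    have h3 : Real.logb 2 N ≤ (l : ℝ) + 1 := by
      have h4 : (N : ℝ) ≤ 2 ^ (l + 1) := by
        have := (Nat.lt_pow_succ_log_self (b := 2) (by norm_num) N).le
        exact_mod_cast this
      refine (Real.logb_le_logb_of_le (by norm_num) (by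
        have : 0 < N := by omega
        exact_mod_cast this) h4).trans (le_of_eq ?_)
      rw [Real.logb_pow, Real.logb_self_eq_one (by norm_num), mul_one]
      push_cast
      rfl
    have h5 : len k c (n + 1) ≤ (c + 4) * (n + 1) ^ k := by
      unfold len
      have h6 : n + 1 ≤ (n + 1) ^ k := Nat.le_self_pow (by omega) _
      have h7 : (c + 4) * (n + 1) ^ k = (c + 1) * (n + 1) ^ k + 3 * (n + 1) ^ k := by ring
      omega
    have h6 : Real.logb 2 N ≤ (((c : ℝ) + 4) * ((n : ℝ) + 1)) ^ k := by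
      have h7 : ((l + 1 : ℕ) : ℝ) ≤ (((c + 4) * (n + 1) ^ k : ℕ) : ℝ) := by
        have : l + 1 ≤ (c + 4) * (n + 1) ^ k := by omega
        exact_mod_cast this
      have h8 : (((c + 4) * (n + 1) ^ k : ℕ) : ℝ) ≤ (((c : ℝ) + 4) * ((n : ℝ) + 1)) ^ k := by
        rw [mul_pow]
        have h9 : (c + 4) ≤ (c + 4) ^ k := Nat.le_self_pow (by omega) _
        have h10 : (c + 4) * (n + 1) ^ k ≤ (c + 4) ^ k * (n + 1) ^ k := Nat.mul_le_mul_right _ h9
        exact_mod_cast h10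
      push_cast at h7
      push_cast at h8
      linarith
    have hk0 : (0 : ℝ) < k := by exact_mod_cast hk
    have h7 : (Real.logb 2 N) ^ (1 / k : ℝ) ≤ ((c : ℝ) + 4) * ((n : ℝ) + 1) := by
      have h8 : (0 : ℝ) ≤ Real.logb 2 N := Real.logb_nonneg (by norm_num) (by
        have : 1 ≤ N := by omega
        exact_mod_cast this)
      calc (Real.logb 2 N) ^ (1 / k : ℝ) ≤ ((((c : ℝ) + 4) * ((n : ℝ) + 1)) ^ k) ^ (1 / k : ℝ) :=
            Real.rpow_le_rpow h8 h6 (by positivity)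
        _ = ((c : ℝ) + 4) * ((n : ℝ) + 1) := by
            rw [one_div]
            exact Real.pow_rpow_inv_natCast (by positivity) (by omega)
    calc 1 / (2 * ((c : ℝ) + 4)) * (Real.logb 2 N) ^ (1 / k : ℝ)
        ≤ 1 / (2 * ((c : ℝ) + 4)) * (((c : ℝ) + 4) * ((n : ℝ) + 1)) :=
          mul_le_mul_of_nonneg_left h7 hεpos.le
      _ = ((n : ℝ) + 1) / 2 := by
          have : ((c : ℝ) + 4) ≠ 0 := by positivity
          field_simp
  · refine le_trans ?_ hn₂.le
    exact pow_le_pow_of_le_one (by norm_num) (by norm_num)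
      (((le_max_right _ _).trans (le_max_right _ _)).trans hmn)

/-- few oracles: the null set, if the test language is in `P` -/
theorem null_easyP {k : ℕ} (hk : 1 ≤ k) (htst : ∀ A, IsP A (tst k A)) {f : ℕ → ℝ}
    (hf : CondS k f) : Null f (easyP k) := by
  refine (null_iUnion (f := f) (fun c : ℕ => {A : Oracle | ∀ᶠ n : ℕ in atTop, A ∈ badS k c n})
    fun c => null_badS hk c hf).mono ?_
  intro A hA
  obtain ⟨c, hc⟩ := hA (tst k A) (htst A)
  refine Set.mem_iUnion.2 ⟨⌈c⌉₊, ?_⟩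
  rw [Set.mem_ofPred_eq]
  filter_upwards [hc] with n hn
  obtain ⟨C, hC1, hC2⟩ := hn
  refine ⟨C, ?_, hC2⟩
  have h1 : (C.size : ℝ) ≤ ((⌈c⌉₊ * n ^ k : ℕ) : ℝ) := by
    push_cast
    refine hC1.le.trans ?_
    exact mul_le_mul_of_nonneg_right (Nat.le_ceil c) (by positivity)
  exact_mod_cast h1

end Pool.Agent.TH707.SL
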