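import Pool.Agent.TH707.EC.NullE

/-!
# Circuits that are too small to ask the test question
-/

set_option autoImplicit false

namespace Pool.Agent.TH707.SL

open Pool.Agent.NPC Pool.Agent.H620R2.Gauge Finset MeasureTheory Filter
open Pool.Agent.H622R2.Ckt
open Pool.Agent.TH707.EC
open H568R2

/-- the circuit answers the test question for the strings in `T` -/
def EvT (T : Finset (List Bool)) (q N : ℕ) (C : Circuit) (a : Fin N → Bool) : Prop :=
  ∀ y ∈ T, (orc N a (y ++ List.replicate q false) = true ↔ C.eval (orc N a) y = true)

open Classical in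
theorem evT_bound {T : Finset (List Bool)} {n q N : ℕ} (hT : ∀ y ∈ T, y.length = n)
    (hN : 2 ^ (n + q + 1) ≤ N) {C : Circuit} (hC : C.size ≤ n + q) :
    Ex unif (fun a : Fin N → Bool => if EvT T q N C a then (1 : ℝ) else 0) ≤
      (1 / 2) ^ T.card := by
  have hlen : ∀ x ∈ T, (x ++ List.replicate q false).length = n + q := by
    intro x hx
    rw [List.length_append, hT x hx, List.length_replicate]
  have hidx : ∀ x ∈ T, idx (x ++ List.replicate q false) < N := by
    intro x hx
    have h1 := idx_lt (x ++ List.replicate q false)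
    rw [hlen x hx] at h1
    omega
  -- the positions of the test strings
  set P : Finset ℕ := T.image fun x => idx (x ++ List.replicate q false) with hP
  have hinj : ∀ x ∈ T, ∀ y ∈ T,
      idx (x ++ List.replicate q false) = idx (y ++ List.replicate q false) → x = y := by
    intro x _ y _ h
    have h1 := congrArg str h
    rw [str_idx, str_idx] at h1
    exact List.append_cancel_right h1
  have hPcard : P.card = T.card := by
    rw [hP, card_image_of_injOn (fun x hx y hy h => hinj x hx y hy h)]
  have hPN : ∀ i ∈ P, i < N := by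
    intro i hi
    rw [hP, mem_image] at hi
    obtain ⟨x, hx, rfl⟩ := hi
    exact hidx x hx
  rw [← card_of_Ex]
  -- the bits off the positions determine the point
  have hcard : (univ.filter fun a : Fin N → Bool => EvT T q N C a).card ≤ 2 ^ (N - T.card) := by
    have h1 : (univ.filter fun a : Fin N → Bool => EvT T q N C a).card ≤
        (univ : Finset ({i : Fin N // (i : ℕ) ∉ P} → Bool)).card := by
      refine card_le_card_of_injOn (fun a i => a i.1) (fun _ _ => mem_univ _) ?_
      intro a ha b hb hab
      rw [mem_coe, mem_filter] at ha hb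
      have hoff : ∀ i : Fin N, (i : ℕ) ∉ P → a i = b i := by
        intro i hi
        exact congrFun hab ⟨i, hi⟩
      have hev : ∀ x : List Bool, C.eval (orc N a) x = C.eval (orc N b) x := by
        intro x
        refine eval_local C _ _ (fun y hy => ?_) x
        unfold orc
        by_cases h2 : idx y < N
        · rw [dif_pos h2, dif_pos h2]
          refine hoff _ ?_
          intro h3
          rw [hP, mem_image] at h3
          obtain ⟨z, hz, h4⟩ := h3
          have h5 := congrArg str h4
          rw [str_idx, str_idx] at h5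
          have h6 := congrArg List.length h5
          rw [hlen z hz] at h6
          omega
        · rw [dif_neg h2, dif_neg h2]
      funext i
      by_cases hi : (i : ℕ) ∈ P
      · have hi' := hi
        rw [hP, mem_image] at hi'
        obtain ⟨x, hx, h3⟩ := hi'
        have h4 := ha.2 x hx
        have h5 := hb.2 x hx
        rw [hev x, ← h5] at h4
        have h6 : ∀ c : Fin N → Bool, orc N c (x ++ List.replicate q false) = c i := by
          intro c
          unfold orc
          rw [dif_pos (hidx x hx)]
          congr 1
          exact Fin.ext h3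
        rw [h6, h6] at h4
        exact Bool.eq_iff_iff.2 h4
      · exact hoff i hi
    refine h1.trans (le_of_eq ?_)
    rw [card_univ, Fintype.card_fun, Fintype.card_bool]
    congr 1
    rw [Fintype.card_subtype_compl, Fintype.card_fin]
    congr 1
    rw [← hPcard, Fintype.card_subtype]
    refine card_bij (fun i _ => (i : ℕ)) (fun i hi => (mem_filter.1 hi).2)
      (fun i _ j _ h => Fin.ext h) (fun i hi => ⟨⟨i, hPN i hi⟩, ?_, rfl⟩)
    rw [mem_filter]
    exact ⟨mem_univ _, hi⟩
  have hle : T.card ≤ N := by
    have h1 : P ⊆ range N := fun i hi => mem_range.2 (hPN i hi)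
    have h2 := card_le_card h1
    rwa [hPcard, card_range] at h2
  have h2 : ((univ.filter fun a : Fin N → Bool => EvT T q N C a).card : ℝ) ≤
      2 ^ ((N : ℝ) - (T.card : ℕ)) := by
    have h3 : (2 : ℝ) ^ ((N : ℝ) - (T.card : ℕ)) = ((2 ^ (N - T.card) : ℕ) : ℝ) := by
      rw [← Nat.cast_sub hle, Real.rpow_natCast]
      push_cast
      rfl
    rw [h3]
    exact_mod_cast hcard
  calc ((univ.filter fun a : Fin N → Bool => EvT T q N C a).card : ℝ) * 2 ^ (-(N : ℝ))
      ≤ 2 ^ ((N : ℝ) - (T.card : ℕ)) * 2 ^ (-(N : ℝ)) :=
        mul_le_mul_of_nonneg_right h2 (by positivity)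
    _ = (1 / 2) ^ T.card := by
        rw [← Real.rpow_add (by norm_num)]
        have h4 : (N : ℝ) - (T.card : ℕ) + -(N : ℝ) = -((T.card : ℕ) : ℝ) := by ring
        rw [h4, Real.rpow_neg (by norm_num), Real.rpow_natCast, one_div, inv_pow]

/-- some circuit of size at most `s` answers the test question for the strings in `T` -/
def EvA (T : Finset (List Bool)) (q s N : ℕ) (a : Fin N → Bool) : Prop :=
  ∃ C : Circuit, C.size ≤ s ∧ EvT T q N C a

open Classical in
theorem evA_bound {T : Finset (List Bool)} {n q s N : ℕ} (hT : ∀ y ∈ T, y.length = n)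
    (hN : 2 ^ (n + q + 1) ≤ N) (hs : s ≤ n + q) :
    Ex unif (fun a : Fin N → Bool => if EvA T q s N a then (1 : ℝ) else 0) ≤
      nC n s * (1 / 2) ^ T.card := by
  obtain ⟨F, hF1, hF2⟩ := exists_circuits n s
  have h1 : ∀ a : Fin N → Bool, (if EvA T q s N a then (1 : ℝ) else 0) ≤
      ∑ C ∈ F.filter (fun C => C.size ≤ s), if EvT T q N C a then (1 : ℝ) else 0 := by
    intro a
    by_cases h : EvA T q s N a
    · rw [if_pos h]
      obtain ⟨C, hC, hE⟩ := h
      obtain ⟨C', hC', hs', hev⟩ := hF2 C hC
      have h3 : EvT T q N C' a := by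
        intro x hx
        rw [hE x hx, hev (orc N a) x (hT x hx)]
      refine le_trans ?_ (single_le_sum (f := fun C => if EvT T q N C a then (1 : ℝ) else 0)
        (fun C _ => by split_ifs <;> norm_num) (mem_filter.2 ⟨hC', hs'⟩))
      simp only [if_pos h3]
      exact le_rfl
    · rw [if_neg h]
      exact sum_nonneg fun C _ => by split_ifs <;> norm_num
  have hu : ∀ b, 0 ≤ unif b := fun b => by unfold unif; norm_num
  refine (Ex_mono hu h1).trans ?_
  rw [Ex_sum]
  refine (sum_le_sum fun C hC => evT_bound hT hN ((mem_filter.1 hC).2.trans hs)).trans ?_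
  rw [sum_const, nsmul_eq_mul]
  refine mul_le_mul_of_nonneg_right ?_ (by positivity)
  exact_mod_cast (card_le_card (filter_subset _ _)).trans hF1

end Pool.Agent.TH707.SL
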