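import Pool.Agent.TH707.SL.Lang
import Pool.Agent.H622R2.Ckt.CIR
import Pool.Agent.H622R2.Exp.G
import Pool.Agent.H620R2.GaugeX.X4
import Pool.Agent.H620R2.GaugeX.NonNullX

/-!
# Oracles relative to which `NE` has circuits of size `O(n ^ k)`
-/

set_option autoImplicit false

namespace Pool.Agent.TH707.SL

open Pool.Agent.NPC Pool.Agent.H620R2.Gauge Finset MeasureTheory Filter
open Pool.Agent.H622R2.Exp (InNTime Lin good_Lin)
open Pool.Agent.H622R2.Ckt
open Pool.Agent.TH707.EC
open H568R2

/-- the question for nondeterministic linear exponential time -/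
def Qn (M : Alg) (c : ℕ) (x : List Bool) (A : Oracle) : Prop :=
  ∃ w : List Bool, w.length ≤ 2 ^ (c * (x.length + 1)) ∧ M.out A (pairBits w x) = some [true]

theorem ne_local (M : Alg) (c : ℕ) : ∃ c' : ℕ, ∀ (x : List Bool) (A : Oracle), Qn M c x A →
    ∃ U : Finset (List Bool), U.card ≤ 2 ^ (c' * (x.length + 1)) ∧
      ∀ A' : Oracle, (∀ u ∈ U, A' u = A u) → Qn M c x A' := by
  obtain ⟨r, ⟨c', rfl⟩, hr⟩ := good_Lin.comp (Polynomial.C c * (Polynomial.X + 1)) ⟨c, rfl⟩
    (M.p.comp (Polynomial.C 2 * Polynomial.X + Polynomial.C 1))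
  refine ⟨c', ?_⟩
  rintro x A ⟨w, hw, h⟩
  obtain ⟨U, hU1, hU2⟩ := run_local M A (pairBits w x) (M.p.eval (pairBits w x).length) []
  refine ⟨U, hU1.trans ?_, fun A' hA' => ⟨w, hw, ?_⟩⟩
  · have h1 := hr x.length
    simp only [Polynomial.eval_comp, Polynomial.eval_add, Polynomial.eval_mul, Polynomial.eval_C,
      Polynomial.eval_X, Polynomial.eval_one] at h1
    refine le_trans (NPC.eval_mono _ ?_) h1
    rw [length_pairBits]
    omega
  · have h2 : M.out A' (pairBits w x) = M.out A (pairBits w x) := hU2 A' hA'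
    rw [h2, h]

/-- the paddings of the codes -/
noncomputable def RK (K k : ℕ) (e : ℕ) : Polynomial ℕ :=
  Polynomial.C K * (Polynomial.X + Polynomial.C (e + 1)) ^ k

theorem eval_RK (K k e m : ℕ) : (RK K k e).eval m = K * (m + (e + 1)) ^ k := by
  unfold RK
  simp only [Polynomial.eval_mul, Polynomial.eval_pow, Polynomial.eval_add, Polynomial.eval_C,
    Polynomial.eval_X]

/-- the code strings -/
def TK (K k : ℕ) : Set (List Bool) := {y | ∃ e z, y = code (RK K k) e z}

theorem length_code (R : ℕ → Polynomial ℕ) (e : ℕ) (z : List Bool) :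
    (code R e z).length = e + (R e).eval z.length + z.length + 2 := by
  unfold code
  simp only [List.length_append, List.length_replicate, List.length_cons]
  omega

/-- the oracles relative to which `NE` has circuits of size `O(n ^ k)` -/
def easyNE (k : ℕ) : Set Oracle :=
  {A | ∀ L, InNTime Lin A L → ∃ c : ℝ, ∀ᶠ n : ℕ in atTop, Small A L (c * (n : ℝ) ^ k) n}

theorem exists_pairs : ∃ g : ℕ → Alg × ℕ, Function.Surjective g := by
  obtain ⟨al, hal⟩ := exists_alg
  have h2 : Countable Alg := hal.countable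
  have h3 : Nonempty (Alg × ℕ) := ⟨(al 0, 0)⟩
  exact exists_surjective_nat (Alg × ℕ)

open Classical in
/-- some witness is good for all inputs of length `n` -/
theorem exists_wit {n H : ℕ} (hn : n < H) (G : List Bool → (Fin (2 * H) → Bool) → Prop)
    (h : ∀ x : List Bool, x.length = n → Nat.card {w : Fin (2 * H) → Bool // ¬ G x w} ≤ 2 ^ H) :
    ∃ w : Fin (2 * H) → Bool, ∀ x : List Bool, x.length = n → G x w := by
  by_contra hcon
  push Not at hcon
  have h1 : (univ : Finset (Fin (2 * H) → Bool)) ⊆
      (keys n).biUnion fun x => univ.filter fun w => ¬ G x w := by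
    intro w _
    obtain ⟨x, hx, hG⟩ := hcon w
    exact mem_biUnion.2 ⟨x, mem_keys.2 hx, mem_filter.2 ⟨mem_univ _, hG⟩⟩
  have h2 := (card_le_card h1).trans card_biUnion_le
  have h3 : ∀ x ∈ keys n, (univ.filter fun w : Fin (2 * H) → Bool => ¬ G x w).card ≤ 2 ^ H := by
    intro x hx
    have h4 := h x (mem_keys.1 hx)
    rwa [Nat.card_eq_fintype_card, Fintype.card_subtype] at h4
  have h4 := h2.trans (sum_le_card_nsmul _ _ _ h3)
  rw [card_univ, Fintype.card_fun, Fintype.card_bool, Fintype.card_fin, card_keys, smul_eq_mul,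
    ← pow_add] at h4
  have h5 := (Nat.pow_le_pow_iff_right (by norm_num : 1 < 2)).1 h4
  omega

open Classical in
theorem exists_easy (K k : ℕ) (hk : 1 ≤ k) (B : Oracle) :
    ∃ A ∈ easyNE k, ∀ y ∉ TK K k, A y = B y := by
  obtain ⟨g, hg⟩ := exists_pairs
  choose c' hc' using fun e : ℕ => ne_local (g e).1 (g e).2
  set p : ℕ → Polynomial ℕ := fun e => Polynomial.C (c' e) * (Polynomial.X + 1) with hp
  have hpe : ∀ e n, (p e).eval n = c' e * (n + 1) := by
    intro e n
    rw [hp]
    simp
  obtain ⟨key, hkey, hsum⟩ := exists_key p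
  obtain ⟨A, hA1, hA2⟩ := X4.stage_one (RK K k) p (fun e x A => Qn (g e).1 (g e).2 x A)
    (fun e x A h => by
      rw [hpe]
      exact hc' e x A h) key hkey hsum B
  refine ⟨A, ?_, fun y hy => hA1 y fun e z h => hy ⟨e, z, h⟩⟩
  rintro L ⟨V, ⟨M, hM⟩, q, ⟨c, rfl⟩, hL⟩
  obtain ⟨e, he⟩ := hg (M, c)
  set a : ℕ := 8 * c' e + 5 * e + 20 with ha
  refine ⟨((K * a ^ k + 3 * a : ℕ) : ℝ), ?_⟩
  filter_upwards [eventually_ge_atTop 1] with n hn
  set H := hl p e n with hH
  have hHe : H = c' e * (n + 1) + 2 * n + e + 2 := by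
    rw [hH]
    unfold hl
    rw [hpe]
  have hnH : n < H := by omega
  obtain ⟨w, hw⟩ := exists_wit hnH
    (fun x w => (A (code (RK K k) e (true :: pairBits (List.ofFn w) x)) = true ↔
      Qn (g e).1 (g e).2 x A)) (fun x hx => by
        subst hx
        exact hA2 e x)
  -- the circuit
  have hzl : ∀ x : List Bool, x.length = n →
      (true :: pairBits (List.ofFn w) x).length = 4 * H + n + 2 := by
    intro x hx
    rw [List.length_cons, length_pairBits, List.length_ofFn, hx]
    omega
  obtain ⟨C, hC1, hC2⟩ := exists_circuit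
    (List.replicate e true ++ false ::
      (List.replicate ((RK K k e).eval (4 * H + n + 2)) true ++ false ::
        (true :: ((List.ofFn w).flatMap (fun b => [true, b]) ++ [false])))) [] n
  have hcode : ∀ x : List Bool, x.length = n →
      code (RK K k) e (true :: pairBits (List.ofFn w) x) =
      (List.replicate e true ++ false ::
      (List.replicate ((RK K k e).eval (4 * H + n + 2)) true ++ false ::
        (true :: ((List.ofFn w).flatMap (fun b => [true, b]) ++ [false])))) ++ x ++ [] := by
    intro x hx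
    unfold code
    rw [hzl x hx]
    unfold pairBits
    simp only [List.append_assoc, List.cons_append, List.append_nil, List.nil_append]
  have hsize : C.size ≤ e + (RK K k e).eval (4 * H + n + 2) + (4 * H + n + 2) + 3 := by
    have h1 := congrArg List.length (hcode (List.replicate n false) (by simp))
    rw [length_code, hzl _ (by simp), List.length_append, List.length_append,
      List.length_replicate, List.length_nil] at h1
    rw [hC1, List.length_nil]
    omega
  refine ⟨C, ?_, fun x hx => ?_⟩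
  · -- the size
    have hlin : 4 * H + n + 2 + (e + 1) ≤ a * n := by
      obtain ⟨m, rfl⟩ : ∃ m, n = m + 1 := ⟨n - 1, by omega⟩
      rw [hHe, ha]
      nlinarith [Nat.zero_le (c' e * m), Nat.zero_le (e * m)]
    have hn' : n ≤ n ^ k := Nat.le_self_pow (by omega) _
    have h2 : (RK K k e).eval (4 * H + n + 2) ≤ K * a ^ k * n ^ k := by
      rw [eval_RK, mul_assoc, ← mul_pow]
      exact Nat.mul_le_mul_left _ (Nat.pow_le_pow_left hlin _)
    have h3 : e + (4 * H + n + 2) + 3 < 3 * a * n ^ k := by
      have h4 : a * n ≤ a * n ^ k := Nat.mul_le_mul_left _ hn'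
      have h5 : a ≤ a * n ^ k := Nat.le_mul_of_pos_right _ (by positivity)
      have h6 : 3 * a * n ^ k = a * n ^ k + a * n ^ k + a * n ^ k := by ring
      omega
    have h4 : C.size < (K * a ^ k + 3 * a) * n ^ k := by
      have h5 : (K * a ^ k + 3 * a) * n ^ k = K * a ^ k * n ^ k + 3 * a * n ^ k := by ring
      omega
    have h5 : (C.size : ℝ) < (((K * a ^ k + 3 * a) * n ^ k : ℕ) : ℝ) := by exact_mod_cast h4
    refine h5.trans_le (le_of_eq ?_)
    push_cast
    ring
  · rw [hC2 A x hx, ← hcode x hx, hw x hx, hL x]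
    rw [he]
    unfold Qn
    constructor
    · rintro ⟨w', h1, h2⟩
      refine ⟨w', ?_, ?_⟩
      · simpa using h1
      · rw [hM, h2]
    · rintro ⟨w', h1, h2⟩
      refine ⟨w', ?_, ?_⟩
      · simpa using h1
      · rw [hM] at h2
        exact Option.some.inj h2

end Pool.Agent.TH707.SL
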