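import Pool.Agent.TH707.SL.Sparse
import Pool.Agent.H620R2.GaugeX.X12
import Pool.Agent.H620R2.Gauge2.Trans

/-!
# Superlinear circuit lower bounds relative to oracles
-/

set_option autoImplicit false

namespace Pool.Agent.TH707.SL

open Pool.Agent.NPC Pool.Agent.H620R2.Gauge Finset MeasureTheory Filter
open Pool.Agent.H622R2.Exp (InNTime Lin good_Lin)
open Pool.Agent.H622R2.Ckt
open Pool.Agent.TH707.EC
open Pool.Agent.W900.CH (Close)
open Pool.Agent.H628R3.RO (randomOracle)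

open Pool.Agent.H620R2.Gauge.X12 in
theorem np_ne {A : Oracle} {L : Set (List Bool)} (h : IsNP A L) : InNTime Lin A L := by
  obtain ⟨V, p, hV, hL⟩ := h
  obtain ⟨r, hrL, hr⟩ := good_Lin.comp (Polynomial.C 0 * (Polynomial.X + 1)) ⟨0, rfl⟩
    (Polynomial.C 2 * p + Polynomial.C 1)
  refine ⟨newV V p, isFP_newV hV p, r, hrL, fun x => ?_⟩
  rw [hL x]
  constructor
  · rintro ⟨w, hw, hV1⟩
    refine ⟨pairBits w [], ?_, ?_⟩
    · rw [length_pairBits, List.length_nil]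
      have h1 := hr x.length
      simp only [Polynomial.eval_add, Polynomial.eval_mul, Polynomial.eval_C,
        Polynomial.eval_X, zero_mul, pow_zero] at h1
      have h2 : p.eval x.length ≤ p.eval (x.length + 1) := NPC.eval_mono _ (Nat.le_succ _)
      omega
    · unfold newV
      rw [cw_pair, cx_pair, if_pos hw]
      exact hV1
  · rintro ⟨w', -, hV1⟩
    unfold newV at hV1
    split_ifs at hV1 with h1
    · rw [cx_pair] at h1 hV1
      exact ⟨_, h1, hV1⟩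

theorem p_np {A : Oracle} {L : Set (List Bool)} (h : IsP A L) : IsNP A L := h.isNP

/-- The threshold on the scale of gauges. -/
theorem gauge (k : ℕ) (hk : 1 ≤ k) (f : ℕ → ℝ) (S : Set Oracle)
    (h1 : ∀ A : Oracle, (∀ L, InNTime Lin A L →
      ∃ c : ℝ, ∀ᶠ n : ℕ in atTop, Small A L (c * (n : ℝ) ^ k) n) → A ∈ S)
    (h2 : ∀ A ∈ S, ∀ L, IsP A L →
      ∃ c : ℝ, ∀ᶠ n : ℕ in atTop, Small A L (c * (n : ℝ) ^ k) n) :
    Null f S ↔ ∀ ε : ℝ, 0 < ε →
      ∃ᶠ N : ℕ in atTop, f N ≤ 2 ^ (ε * (Real.logb 2 N) ^ (1 / k : ℝ)) := by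
  constructor
  · intro hn
    by_contra hc
    exact easy_not_null hk (f := f) hc (hn.mono fun A hA => h1 A hA)
  · intro hf
    exact (null_easy hk hf).mono h2

/-- The threshold for the number of changed strings. -/
theorem changed (k : ℕ) (hk : 1 ≤ k) (g : ℕ → ℝ) :
    ((∀ ε : ℝ, 0 < ε → ∃ᶠ n : ℕ in atTop, g n ≤ 2 ^ (ε * (n : ℝ) ^ (1 / k : ℝ))) →
      ∀ᵐ O ∂randomOracle, ∀ A : Oracle, Close g O A →
        ∃ L, IsP A L ∧ ∀ c : ℝ, ∃ᶠ n : ℕ in atTop, ¬ Small A L (c * (n : ℝ) ^ k) n) ∧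
    ((¬ ∀ ε : ℝ, 0 < ε → ∃ᶠ n : ℕ in atTop, g n ≤ 2 ^ (ε * (n : ℝ) ^ (1 / k : ℝ))) →
      ∀ O : Oracle, ∃ A : Oracle, Close g O A ∧ ∀ L, InNTime Lin A L →
        ∃ c : ℝ, ∀ᶠ n : ℕ in atTop, Small A L (c * (n : ℝ) ^ k) n) := by
  refine ⟨fun hg => ?_, fun hg O => ?_⟩
  · have h1 : ∀ᵐ O ∂randomOracle, ∀ A, Close g O A → A ∉ easyP k :=
      far_aux fun n₁ => null_easy hk (condS_gau hk hg n₁)
    filter_upwards [h1] with O hO A hA
    have h2 := hO A hA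
    unfold easyP at h2
    rw [Set.mem_ofPred_eq] at h2
    push Not at h2
    obtain ⟨L, hL, h3⟩ := h2
    exact ⟨L, hL, fun c => h3 c⟩
  · obtain ⟨A, h1, h2⟩ := easy_close hk hg O
    exact ⟨A, h1, h2⟩

end Pool.Agent.TH707.SL
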