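import Pool.Agent.TH707.SL.Null
import Pool.Agent.H620R2.Gauge.C

/-!
# The test language is in `P`
-/

set_option autoImplicit false

namespace Pool.Agent.TH707.SL

open Pool.Agent.NPC Pool.Agent.H620R2.Gauge Finset MeasureTheory Filter

theorem poly_pad (k : ℕ) :
    Poly (fun y : List Bool => y ++ List.replicate ((lead y + 1) * y.length ^ k) false) := by
  have h1 : UPoly (fun y : List Bool => y.length) := UPoly.length Poly.id
  have h2 : UPoly (fun y : List Bool => lead y) := UPoly.length (NPC.Poly.fst poly_unpair)
  have h3 : UPoly (fun y : List Bool => y.length ^ k) :=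
    (h1.eval (Polynomial.X ^ k)).congr fun y => by simp
  have h4 : UPoly (fun y : List Bool => lead y + 1) :=
    (h2.eval (Polynomial.X + 1)).congr fun y => by simp
  have h5 : UPoly (fun y : List Bool => (lead y + 1) * y.length ^ k) := UPoly.mul h4 h3
  have h6 : Poly (fun y : List Bool =>
      List.replicate ((lead y + 1) * y.length ^ k) false) :=
    (NPC.Poly.map (F := fun _ _ => false) h5 (NPC.Poly.const false)).congr fun x => by simp
  exact NPC.Poly.append NPC.Poly.id h6

theorem tst_isP (k : ℕ) (A : Oracle) : IsP A (tst k A) := by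
  refine isP_of_reduces ⟨_, Pool.Agent.H622R2.polyTime_of_poly_list (poly_pad k), fun y => ?_⟩
  rfl

/-- few oracles -/
theorem null_easy {k : ℕ} (hk : 1 ≤ k) {f : ℕ → ℝ} (hf : CondS k f) : Null f (easyP k) :=
  null_easyP hk (tst_isP k) hf

end Pool.Agent.TH707.SL
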